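import Pool.Agent.N637.SLK.Den
import Pool.Agent.N756.SLX.DEN

/-!
# Project SLK (helper637), part DEN: the natural density of the criterion

Adapted from `Pool.Agent.N756.SLX.DEN`.
-/

set_option autoImplicit false
set_option linter.all false

open scoped Classical

namespace Pool.Agent.N199.SLK

open Finset Filter Topology
open Pool.Agent.N637.SLK
open Pool.Agent.N916.AM (LAH Ks mem_Ks cls_iff dq low ratio)
open Pool.Agent.N916.TE (FD count_split)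
open Pool.Agent.Y703.CQ (nr)
open Pool.Agent.N973.ND (uu)
open Pool.Agent.N637.SLX (alt gl)
open Pool.Agent.N756.SLX (tprod_mem alt_le gl_pos)

theorem law_mem {k : ℕ} (r : ℕ) (j : Fin k → ℕ) : 0 ≤ lawF r j ∧ lawF r j ≤ 1 := by
  have ht := tprod_mem (fun l : ℕ => 1 - (1 / 2 : ℝ) ^ (r + 1 + l))
    (fun l => by
      have : (1 / 2 : ℝ) ^ (r + 1 + l) ≤ 1 := pow_le_one₀ (by norm_num) (by norm_num)
      linarith)
    (fun l => by
      have : (0 : ℝ) ≤ (1 / 2 : ℝ) ^ (r + 1 + l) := by positivity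
      linarith)
  have h1 : (0 : ℝ) ≤ ∏ i, (alt r (j i) : ℝ) / 2 ^ (r * (r - 1) / 2) :=
    prod_nonneg fun i _ => by positivity
  have h2 : ∏ i, (alt r (j i) : ℝ) / 2 ^ (r * (r - 1) / 2) ≤ 1 := by
    refine prod_le_one (fun i _ => by positivity) fun i _ => ?_
    rw [div_le_one (by positivity)]
    exact_mod_cast alt_le r (j i)
  have hg : (1 : ℝ) ≤ (gl r : ℝ) := by exact_mod_cast gl_pos r
  have h3 : (0 : ℝ) ≤ (∏ i, (alt r (j i) : ℝ) / 2 ^ (r * (r - 1) / 2)) / (gl r : ℝ) :=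
    div_nonneg h1 (by positivity)
  have h4 : (∏ i, (alt r (j i) : ℝ) / 2 ^ (r * (r - 1) / 2)) / (gl r : ℝ) ≤ 1 := by
    rw [div_le_one (by positivity)]
    exact h2.trans hg
  unfold lawF
  exact ⟨mul_nonneg h3 ht.1, mul_le_one₀ h4 ht.1 ht.2⟩

/-! ### symbols -/

theorem nr_cast {p a b : ℕ} (h : (a : ZMod p) = b) : nr p a = nr p b := by
  unfold Pool.Agent.Y703.CQ.nr
  rw [h]

theorem nr_one_iff {p a : ℕ} : nr p a = 1 ↔ ¬ IsSquare (a : ZMod p) := by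
  unfold Pool.Agent.Y703.CQ.nr
  split_ifs with h
  · simp [h]
  · simp [h]

theorem nr_zero_iff {p a : ℕ} : nr p a = 0 ↔ IsSquare (a : ZMod p) := by
  unfold Pool.Agent.Y703.CQ.nr
  split_ifs with h
  · simp [h]
  · simp [h]

theorem two_ne {p : ℕ} (hp : p.Prime) (h2 : p ≠ 2) : ((2 : ℕ) : ZMod p) ≠ 0 := by
  intro h
  rw [ZMod.natCast_eq_zero_iff] at h
  exact h2 ((Nat.prime_dvd_prime_iff_eq hp Nat.prime_two).1 h)

/-- the symbol of four times a number -/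
theorem nr_four {p : ℕ} (hp : p.Prime) (h2 : p ≠ 2) (x : ℕ) : nr p (4 * x) = nr p x := by
  haveI := Fact.mk hp
  have h20 := two_ne hp h2
  have key : IsSquare ((4 * x : ℕ) : ZMod p) ↔ IsSquare (x : ZMod p) := by
    constructor
    · rintro ⟨y, hy⟩
      refine ⟨y / ((2 : ℕ) : ZMod p), ?_⟩
      have h4 : ((4 * x : ℕ) : ZMod p) = ((2 : ℕ) : ZMod p) * ((2 : ℕ) : ZMod p) * x := by
        push_cast; ring
      rw [div_mul_div_comm, ← hy, h4, mul_div_cancel_left₀ _ (mul_ne_zero h20 h20)]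
    · rintro ⟨y, hy⟩
      refine ⟨((2 : ℕ) : ZMod p) * y, ?_⟩
      push_cast
      rw [hy]; ring
  by_cases h : IsSquare (x : ZMod p)
  · rw [nr_zero_iff.2 h, nr_zero_iff.2 (key.2 h)]
  · rw [nr_one_iff.2 h, nr_one_iff.2 (fun h' => h (key.1 h'))]

/-- the symbol is additive -/
theorem nr_two_mul {p : ℕ} (hp : p.Prime) (h2 : p ≠ 2) {x : ℕ} (hx : ¬ p ∣ x) :
    nr p (2 * x) = nr p x + nr p 2 := by
  haveI := Fact.mk hp
  have h20 := two_ne hp h2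
  have hx0 : (x : ZMod p) ≠ 0 := by
    intro h
    exact hx ((ZMod.natCast_eq_zero_iff _ _).1 h)
  have h2x : ((2 * x : ℕ) : ZMod p) = ((2 : ℕ) : ZMod p) * x := by push_cast; ring
  have hp1 : (-1 : ℤ) ≠ 1 := by norm_num
  have q1 : ∀ a : ℕ, (a : ZMod p) ≠ 0 → (nr p a = 0 ↔ quadraticChar (ZMod p) (a : ZMod p) = 1) := by
    intro a ha
    rw [nr_zero_iff, quadraticChar_one_iff_isSquare ha]
  have hm : quadraticChar (ZMod p) ((2 * x : ℕ) : ZMod p) =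
      quadraticChar (ZMod p) ((2 : ℕ) : ZMod p) * quadraticChar (ZMod p) (x : ZMod p) := by
    rw [h2x, map_mul]
  have hch : ringChar (ZMod p) ≠ 2 := by
    rw [ZMod.ringChar_zmod_n]; exact h2
  have e2 := quadraticChar_dichotomy h20
  have ex := quadraticChar_dichotomy hx0
  have e2x : ((2 * x : ℕ) : ZMod p) ≠ 0 := by rw [h2x]; exact mul_ne_zero h20 hx0
  have z : ∀ u : ZMod 2, u = 0 ∨ u = 1 := by decide
  have i1 := q1 2 h20
  have i2 := q1 x hx0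
  have i3 := q1 (2 * x) e2x
  rw [hm] at i3
  rcases e2 with e2 | e2 <;> rcases ex with ex | ex <;> rw [e2] at i1 i3 <;> rw [ex] at i2 i3
  · rw [i1.2 rfl, i2.2 rfl, i3.2 (by norm_num)]; rfl
  · have h1 : nr p x = 1 := (z _).resolve_left fun h => by
      have := i2.1 h; norm_num at this
    have h3 : nr p (2 * x) = 1 := (z _).resolve_left fun h => by
      have := i3.1 h; norm_num at this
    rw [i1.2 rfl, h1, h3]; rfl
  · have h1 : nr p 2 = 1 := (z _).resolve_left fun h => by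
      have := i1.1 h; norm_num at this
    have h3 : nr p (2 * x) = 1 := (z _).resolve_left fun h => by
      have := i3.1 h; norm_num at this
    rw [i2.2 rfl, h1, h3]; rfl
  · have h1 : nr p 2 = 1 := (z _).resolve_left fun h => by
      have := i1.1 h; norm_num at this
    have h1' : nr p x = 1 := (z _).resolve_left fun h => by
      have := i2.1 h; norm_num at this
    rw [i3.2 (by norm_num), h1, h1']; rfl

/-- the labels of the residues -/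
theorem lab {k L : ℕ} {ell : Fin L → ℕ} {c : Fin k → Fin L → ZMod 2} {Q : ℕ} {R : Finset ℕ}
    (hL : Lb ell c Q) (hRn : ∀ x ∈ R, ∀ l, nr (ell l) x = 1) {κ x : ℕ} (hx : (κ * x) % Q ∈ R)
    (l : Fin L) : nr (ell l) (κ * x) = 1 ∧ ¬ ell l ∣ x := by
  have h1 := hRn _ hx l
  have h2 : (((κ * x) % Q : ℕ) : ZMod (ell l)) = ((κ * x : ℕ) : ZMod (ell l)) := by
    rw [ZMod.natCast_eq_natCast_iff]
    exact (Nat.mod_modEq (κ * x) Q).of_dvd (hL.pr l).2.2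
  rw [nr_cast h2] at h1
  refine ⟨h1, fun hd => ?_⟩
  rw [nr_one_iff] at h1
  apply h1
  have h3 : ((κ * x : ℕ) : ZMod (ell l)) = 0 := by
    rw [ZMod.natCast_eq_zero_iff]
    exact hd.mul_left κ
  rw [h3]
  exact ⟨0, by ring⟩

theorem Lb8 {k L : ℕ} {ell : Fin L → ℕ} {c : Fin k → Fin L → ZMod 2} {Q : ℕ}
    (hL : Lb ell c Q) : Lb ell c (8 * Q) where
  pr := fun l => ⟨(hL.pr l).1, (hL.pr l).2.1, (hL.pr l).2.2.mul_left 8⟩
  two := hL.two
  ind := fun s γ h => by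
    obtain ⟨x, hx, h1⟩ := hL.ind s γ h
    refine ⟨x, ?_, h1⟩
    have h2 : x.Coprime 2 := Nat.Coprime.coprime_dvd_right (Dvd.intro _ rfl) hx
    have h3 : x.Coprime 8 := by
      have := Nat.Coprime.pow_right 3 h2
      simpa using this
    have h4 : 2 * (8 * Q) = 8 * (2 * Q) := by ring
    rw [h4]
    exact Nat.Coprime.mul_right h3 hx

theorem k4 {Q : ℕ} (hQ : 0 < Q) {R : Finset ℕ} {e κ M : ℕ} (h : M % (8 * Q) ∈ Ks Q e κ R) :
    M % 4 = e :=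
  ((mem_Ks hQ M).1 h).1

theorem gfam_iff {k L : ℕ} (ell : Fin L → ℕ) (c : Fin k → Fin L → ZMod 2) {Q : ℕ} (hQ : 0 < Q)
    (R : Finset ℕ) (a : ℕ) (j : Fin k → ℕ) (n : ℕ) : ((FD n ∧ n % Q ∈ R) ∧ GnF ell c a j n) ↔
    (Squarefree n ∧ n % (8 * Q) ∈ Ks Q 3 1 R ∧ GjF false 0 0 ell c a j n.primeFactors) ∨
    (∃ M, n = 4 * M ∧ (Squarefree M ∧ M % (8 * Q) ∈ Ks Q 1 4 R ∧
      GjF true 0 1 ell c a j M.primeFactors)) ∨
    (∃ M, n = 8 * M ∧ (Squarefree M ∧ M % (8 * Q) ∈ Ks Q 1 8 R ∧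
      GjF true 1 1 ell c a j M.primeFactors)) ∨
    (∃ M, n = 8 * M ∧ (Squarefree M ∧ M % (8 * Q) ∈ Ks Q 3 8 R ∧
      GjF true 1 0 ell c a j M.primeFactors)) := by
  rw [cls_iff hQ]
  constructor
  · rintro ⟨⟨h1, h2⟩ | ⟨M, rfl, h1, h2⟩ | ⟨M, rfl, h1, h2⟩ | ⟨M, rfl, h1, h2⟩, g0, g1, g2, g3⟩
    · have := k4 hQ h2
      exact Or.inl ⟨h1, h2, g0 (by omega)⟩
    · exact Or.inr (Or.inl ⟨M, rfl, h1, h2, g1 M rfl (k4 hQ h2)⟩)
    · exact Or.inr (Or.inr (Or.inl ⟨M, rfl, h1, h2, g2 M rfl (k4 hQ h2)⟩))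
    · exact Or.inr (Or.inr (Or.inr ⟨M, rfl, h1, h2, g3 M rfl (k4 hQ h2)⟩))
  · rintro (⟨h1, h2, h3⟩ | ⟨M, rfl, h1, h2, h3⟩ | ⟨M, rfl, h1, h2, h3⟩ | ⟨M, rfl, h1, h2, h3⟩)
    · have := k4 hQ h2
      exact ⟨Or.inl ⟨h1, h2⟩, fun _ => h3, fun M' hM _ => by omega, fun M' hM _ => by omega,
        fun M' hM _ => by omega⟩
    · have := k4 hQ h2
      refine ⟨Or.inr (Or.inl ⟨M, rfl, h1, h2⟩), fun h => by omega, fun M' hM _ => ?_,
        fun M' hM _ => by omega, fun M' hM _ => by omega⟩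
      obtain rfl : M = M' := by omega
      exact h3
    · have := k4 hQ h2
      refine ⟨Or.inr (Or.inr (Or.inl ⟨M, rfl, h1, h2⟩)), fun h => by omega,
        fun M' hM _ => by omega, fun M' hM _ => ?_, fun M' hM _ => by omega⟩
      obtain rfl : M = M' := by omega
      exact h3
    · have := k4 hQ h2
      refine ⟨Or.inr (Or.inr (Or.inr ⟨M, rfl, h1, h2⟩)), fun h => by omega,
        fun M' hM _ => by omega, fun M' hM _ => by omega, fun M' hM _ => ?_⟩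
      obtain rfl : M = M' := by omega
      exact h3

/-- the count in a class -/
theorem dqF (hJ : S_LAJ) (hR : S_RED) {k L : ℕ} {ell : Fin L → ℕ} {c : Fin k → Fin L → ZMod 2}
    {Q : ℕ} (hQ : 0 < Q) {R : Finset ℕ} (hL : Lb ell c Q) (hRn : ∀ x ∈ R, ∀ l, nr (ell l) x = 1)
    (a : ℕ) (j : Fin k → ℕ) {t : Bool} {r s : ZMod 2} {e κ : ℕ}
    (hts : t = false → s = 0) (htr : t = true → r ≠ 0 ∨ s ≠ 0) (hc : e = if s = 0 then 3 else 1)
    (hk : (t = false ∧ κ = 1) ∨ (t = true ∧ r = 0 ∧ κ = 4) ∨ (t = true ∧ r = 1 ∧ κ = 8)) :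
    ∀ ε : ℝ, 0 < ε → ∃ X₀ : ℕ, ∀ X : ℕ, X₀ ≤ X →
      |(((Icc 1 X).filter fun n => Squarefree n ∧ n % (8 * Q) ∈ Ks Q e κ R ∧
        GjF t r s ell c a j n.primeFactors).card : ℝ) - lawF a j * (((Icc 1 X).filter fun n =>
          Squarefree n ∧ n % (8 * Q) ∈ Ks Q e κ R).card : ℝ)| ≤ ε * X := by
  have h4 : ∀ x ∈ Ks Q e κ R, x % 4 = if s = 0 then 3 else 1 := by
    intro x hx
    unfold Pool.Agent.N916.AM.Ks at hx
    rw [← hc]
    exact (mem_filter.1 hx).2.1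
  have h7 : ∀ x ∈ Ks Q e κ R, ∀ l, ¬ ell l ∣ x ∧
      nr (ell l) x + (if t = true then r * nr (ell l) 2 else 0) = 1 := by
    intro x hx l
    unfold Pool.Agent.N916.AM.Ks at hx
    obtain ⟨h1, h2⟩ := lab hL hRn (mem_filter.1 hx).2.2 l
    have hp := (hL.pr l).1
    have hp2 := (hL.pr l).2.1
    refine ⟨h2, ?_⟩
    rcases hk with ⟨rfl, rfl⟩ | ⟨rfl, rfl, rfl⟩ | ⟨rfl, rfl, rfl⟩
    · rw [one_mul] at h1
      rw [h1, if_neg (by decide)]; rfl
    · rw [nr_four hp hp2] at h1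
      rw [h1, if_pos rfl, zero_mul]; rfl
    · have e8 : 8 * x = 4 * (2 * x) := by ring
      rw [e8, nr_four hp hp2, nr_two_mul hp hp2 h2] at h1
      rw [if_pos rfl, one_mul]
      exact h1
  refine dq (Dvd.intro _ rfl) (by omega) (law_mem a j).1 (law_mem a j).2
    (hR hJ k L ell c (8 * Q) (Dvd.intro _ rfl) (by omega) (Lb8 hL) t r s _ hts htr h4 h7 a j)
    fun x hx => ?_
  have := h4 x hx
  split_ifs at this <;> omega

theorem count_fam (hJ : S_LAJ) (hR : S_RED) {k L : ℕ} {ell : Fin L → ℕ}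
    {c : Fin k → Fin L → ZMod 2}
    {Q : ℕ} (hQ : 0 < Q) {R : Finset ℕ} (hL : Lb ell c Q) (hRn : ∀ x ∈ R, ∀ l, nr (ell l) x = 1)
    (a : ℕ) (j : Fin k → ℕ) : ∀ ε : ℝ, 0 < ε → ∃ X₀ : ℕ, ∀ X : ℕ,
    X₀ ≤ X → |(((Icc 1 X).filter fun n => (FD n ∧ n % Q ∈ R) ∧ GnF ell c a j n).card : ℝ) -
      lawF a j * (((Icc 1 X).filter fun n => FD n ∧ n % Q ∈ R).card : ℝ)| ≤ ε * X := by
  intro ε hε
  obtain ⟨X0, h0⟩ := dqF hJ hR hQ hL hRn a j (t := false) (r := 0) (s := 0) (e := 3) (κ := 1)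
    (fun _ => rfl) (fun h => absurd h (by decide)) (by rw [if_pos rfl]) (Or.inl ⟨rfl, rfl⟩)
    (ε / 8) (by positivity)
  obtain ⟨X1, h1⟩ := dqF hJ hR hQ hL hRn a j (t := true) (r := 0) (s := 1) (e := 1) (κ := 4)
    (fun h => absurd h (by decide)) (fun _ => Or.inr (by decide)) (by rw [if_neg (by decide)])
    (Or.inr (Or.inl ⟨rfl, rfl, rfl⟩)) (ε / 8) (by positivity)
  obtain ⟨X2, h2⟩ := dqF hJ hR hQ hL hRn a j (t := true) (r := 1) (s := 1) (e := 1) (κ := 8)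
    (fun h => absurd h (by decide)) (fun _ => Or.inr (by decide)) (by rw [if_neg (by decide)])
    (Or.inr (Or.inr ⟨rfl, rfl, rfl⟩)) (ε / 8) (by positivity)
  obtain ⟨X3, h3⟩ := dqF hJ hR hQ hL hRn a j (t := true) (r := 1) (s := 0) (e := 3) (κ := 8)
    (fun h => absurd h (by decide)) (fun _ => Or.inl (by decide)) (by rw [if_pos rfl])
    (Or.inr (Or.inr ⟨rfl, rfl, rfl⟩)) (ε / 8) (by positivity)
  refine ⟨8 * (X0 + X1 + X2 + X3), fun X hX => ?_⟩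
  have b0 := h0 X (by omega)
  have b1 := h1 (X / 4) (by omega)
  have b2 := h2 (X / 8) (by omega)
  have b3 := h3 (X / 8) (by omega)
  have c1 := count_split X _ _ _ _ _ (gfam_iff ell c hQ R a j) (fun n h => by
      have := k4 hQ h.2.1; omega) (fun n h => k4 hQ h.2.1) (fun n h => k4 hQ h.2.1)
      (fun n h => k4 hQ h.2.1)
  have c2 := count_split X _ _ _ _ _ (cls_iff hQ R) (fun n h => by
      have := k4 hQ h.2; omega) (fun n h => k4 hQ h.2) (fun n h => k4 hQ h.2)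
      (fun n h => k4 hQ h.2)
  have c1' := congrArg (Nat.cast : ℕ → ℝ) c1
  have c2' := congrArg (Nat.cast : ℕ → ℝ) c2
  push_cast at c1' c2'
  have d4 : (((X / 4 : ℕ) : ℝ)) ≤ X / 4 := by
    have := @Nat.cast_div_le ℝ _ _ _ X 4
    simpa using this
  have d8 : (((X / 8 : ℕ) : ℝ)) ≤ X / 8 := by
    have := @Nat.cast_div_le ℝ _ _ _ X 8
    simpa using this
  rw [abs_le] at b0 b1 b2 b3
  have q1 : ε / 8 * ((X / 4 : ℕ) : ℝ) ≤ ε / 8 * (X / 4) :=
    mul_le_mul_of_nonneg_left d4 (by positivity)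
  have q2 : ε / 8 * ((X / 8 : ℕ) : ℝ) ≤ ε / 8 * (X / 8) :=
    mul_le_mul_of_nonneg_left d8 (by positivity)
  have hX' : 0 ≤ ε / 8 * X := by positivity
  rw [abs_le, c1', c2']
  constructor
  · linarith [b0.1, b1.1, b2.1, b3.1]
  · linarith [b0.2, b1.2, b2.2, b3.2]

/-- **SLK-DEN** -/
theorem t_DEN : S_DEN := by
  intro hJ hR k L ell c Q R n₀ hQ hL hRn hsq h3 hQR a j
  obtain ⟨c₁, X₁, hc₁, hlow⟩ := low (M := 8 * Q) (by omega) ⟨4 * Q, by ring⟩ hsq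
  refine ratio hc₁ (fun X hX => (hlow X hX).trans ?_) (count_fam hJ hR hQ hL hRn a j)
  refine Nat.cast_le.2 (card_le_card fun n hn' => ?_)
  rw [mem_filter] at hn' ⊢
  have h := hn'.2.2
  have h8 : n % 4 = n₀ % 4 := by
    have e1 : n % (8 * Q) % 4 = n % 4 := Nat.mod_mod_of_dvd n ⟨2 * Q, by ring⟩
    have e2 : n₀ % (8 * Q) % 4 = n₀ % 4 := Nat.mod_mod_of_dvd n₀ ⟨2 * Q, by ring⟩
    rw [← e1, ← e2, h]
  have hq : n % Q = n₀ % Q := by
    have e1 : n % (8 * Q) % Q = n % Q := Nat.mod_mod_of_dvd n ⟨8, by ring⟩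
    have e2 : n₀ % (8 * Q) % Q = n₀ % Q := Nat.mod_mod_of_dvd n₀ ⟨8, by ring⟩
    rw [← e1, ← e2, h]
  refine ⟨hn'.1, Or.inl ⟨hn'.2.1, by omega⟩, ?_⟩
  rw [hq]
  exact hQR

end Pool.Agent.N199.SLK
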